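import Pool.Agent.U959.OC.Quant

/-!
# Even log-concave densities on the line: moments (project SB, package ONE)
-/

set_option autoImplicit false

namespace Pool.Agent.U55.SB

open MeasureTheory Set Filter Topology
open scoped ENNReal
open Pool.Agent.U959.OC

variable {ρ : ℝ → ℝ}

theorem lcd_refl (_h : LCD ρ) (he : ∀ t, ρ (-t) = ρ t) (t : ℝ) : F ρ (-t) = G ρ t := by
  unfold F G
  have h1 := integral_comp_neg_Ioi t ρ
  rw [← h1]
  exact setIntegral_congr_fun measurableSet_Ioi fun s _ => he s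

theorem lcd_refl' (h : LCD ρ) (he : ∀ t, ρ (-t) = ρ t) (t : ℝ) : F ρ (-t) = 1 - F ρ t := by
  rw [lcd_refl h he]
  linarith [h.F_add_G t]

theorem lcd_half (h : LCD ρ) (he : ∀ t, ρ (-t) = ρ t) : F ρ 0 = 1 / 2 := by
  have := lcd_refl' h he 0
  rw [neg_zero] at this
  linarith

theorem lcd_zero_mem (h : LCD ρ) (he : ∀ t, ρ (-t) = ρ t) : (0 : ℝ) ∈ J ρ := by
  obtain ⟨t, ht, -⟩ := h.surj (by norm_num : (0 : ℝ) < 1 / 2) (by norm_num)
  have hn : -t ∈ J ρ := by
    have h1 : (fun x : ℝ => -x) ⁻¹' (supp ρ) = supp ρ := by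
      ext x
      show 0 < ρ (-x) ↔ 0 < ρ x
      rw [he]
    have h2 : (fun x : ℝ => -x) ⁻¹' (J ρ) = J ρ := by
      unfold J
      have := (Homeomorph.neg ℝ).preimage_interior (supp ρ)
      have h3 : (⇑(Homeomorph.neg ℝ)) ⁻¹' (supp ρ) = supp ρ := h1
      rw [h3] at this
      exact this
    have h3 : -t ∈ (fun x : ℝ => -x) ⁻¹' (J ρ) := by
      show - -t ∈ J ρ
      rwa [neg_neg]
    rwa [h2] at h3
  have h3 := h.J_conv ht hn (by norm_num : (0 : ℝ) ≤ 1 / 2) (by norm_num : (0 : ℝ) ≤ 1 / 2)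
    (by norm_num)
  have e : (1 / 2 : ℝ) • t + (1 / 2 : ℝ) • (-t) = 0 := by simp
  rwa [e] at h3

theorem lcd_median (h : LCD ρ) (he : ∀ t, ρ (-t) = ρ t) {m : ℝ} (hm : F ρ m = 1 / 2) : m = 0 := by
  have h0 := lcd_zero_mem h he
  have hF0 := lcd_half h he
  have ho : IsOpen (J ρ) := J_open
  obtain ⟨e, he0, hb⟩ := Metric.isOpen_iff.1 ho 0 h0
  rcases lt_trichotomy m 0 with h1 | h1 | h1
  · exfalso
    have h2 : max (-(e / 2)) m ∈ J ρ := by
      apply hb
      rw [Metric.mem_ball, Real.dist_eq, sub_zero, abs_lt]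
      refine ⟨lt_of_lt_of_le (by linarith) (le_max_left _ _), ?_⟩
      exact lt_of_lt_of_le (max_lt (by linarith) h1) he0.le
    have h3 := h.F_strict h2 h0 (max_lt (by linarith) h1)
    have h4 := h.F_mono (le_max_right (-(e / 2)) m)
    rw [hF0] at h3
    rw [hm] at h4
    linarith
  · exact h1
  · exfalso
    have h2 : min (e / 2) m ∈ J ρ := by
      apply hb
      rw [Metric.mem_ball, Real.dist_eq, sub_zero, abs_lt]
      refine ⟨lt_of_lt_of_le (by linarith) (lt_min (by linarith) h1).le, ?_⟩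
      exact lt_of_le_of_lt (min_le_left _ _) (by linarith)
    have h3 := h.F_strict h0 h2 (lt_min (by linarith) h1)
    have h4 := h.F_mono (min_le_right (e / 2) m)
    rw [hF0] at h3
    rw [hm] at h4
    linarith

/-- the even case of `exists_T` -/
theorem lcd_T (h : LCD ρ) (he : ∀ t, ρ (-t) = ρ t) : ∃ T : ℝ → ℝ,
    (∀ y, T y ∈ J ρ ∧ La ρ (T y) = y) ∧ StrictMono T ∧ ∀ y, |T y| ≤ 1 / (2 * ρ 0) * |y| := by
  obtain ⟨m, T, hp, hF, hs, hT, hTm, hder⟩ := h.exists_T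
  have hm0 : m = 0 := lcd_median h he hF
  subst hm0
  refine ⟨T, hT, hTm, fun y => ?_⟩
  have hT0 : T 0 = 0 := by
    have h1 := h.F_T hT (by norm_num : (0 : ℝ) < 1 / 2) (by norm_num)
    have h2 : lg (1 / 2) = 0 := by unfold lg; norm_num
    rw [h2] at h1
    exact lcd_median h he h1
  have hL : LipschitzWith (1 / (2 * ρ 0)).toNNReal T := by
    refine lipschitzWith_of_nnnorm_deriv_le (fun y => ?_) fun y => ?_
    · obtain ⟨d, hd, -⟩ := hder y
      exact hd.differentiableAt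
    · obtain ⟨d, hd, hd0, hd1, -⟩ := hder y
      rw [← NNReal.coe_le_coe, coe_nnnorm, hd.deriv, Real.norm_eq_abs, abs_of_nonneg hd0,
        Real.coe_toNNReal _ (by positivity)]
      exact hd1
  have h2 := hL.dist_le_mul y 0
  rw [Real.coe_toNNReal _ (by positivity), Real.dist_eq, Real.dist_eq, sub_zero, hT0, sub_zero] at h2
  exact h2

theorem log_four {x : ℝ} (h0 : 0 < x) (h1 : x < 1) :
    Real.log x ^ 4 ≤ 4096 * x ^ (-(1 / 2) : ℝ) := by
  have h5 := Real.abs_log_mul_self_rpow_lt x (1 / 8) h0 h1.le (by norm_num)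
  have h6 : 0 < x ^ (1 / 8 : ℝ) := Real.rpow_pos_of_pos h0 _
  rw [abs_mul, abs_of_pos h6] at h5
  have h7 : |Real.log x| ≤ 8 / x ^ (1 / 8 : ℝ) := by
    rw [le_div_iff₀ h6]
    norm_num at h5
    linarith
  have h8 : |Real.log x| ^ 4 ≤ (8 / x ^ (1 / 8 : ℝ)) ^ 4 := pow_le_pow_left₀ (abs_nonneg _) h7 4
  have e : |Real.log x| ^ 4 = Real.log x ^ 4 := by
    rw [show (4 : ℕ) = 2 * 2 from rfl, pow_mul, sq_abs, ← pow_mul]
  rw [e] at h8
  refine h8.trans (le_of_eq ?_)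
  rw [div_pow, ← Real.rpow_natCast (x ^ (1 / 8 : ℝ)) 4, ← Real.rpow_mul h0.le, Real.rpow_neg h0.le]
  norm_num
  rfl

theorem lg_four_int : IntegrableOn (fun x : ℝ => lg x ^ 4) (Ioo 0 1) := by
  have h1 : IntegrableOn (fun x : ℝ => x ^ (-(1 / 2) : ℝ)) (Ioo 0 1) := by
    have := intervalIntegral.intervalIntegrable_rpow' (a := 0) (b := 1) (r := -(1 / 2))
      (by norm_num)
    rw [intervalIntegrable_iff_integrableOn_Ioo_of_le zero_le_one] at this
    exact this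
  have h2 : IntegrableOn (fun x : ℝ => (1 - x) ^ (-(1 / 2) : ℝ)) (Ioo 0 1) := by
    have h3 := (intervalIntegral.intervalIntegrable_rpow' (a := 0) (b := 1) (r := -(1 / 2))
      (by norm_num)).comp_sub_left 1
    rw [sub_zero, sub_self] at h3
    have h4 := h3.symm
    rw [intervalIntegrable_iff_integrableOn_Ioo_of_le zero_le_one] at h4
    exact h4
  refine Integrable.mono' ((h1.const_mul 32768).add (h2.const_mul 32768))
    (lg_meas.pow_const 4).aestronglyMeasurable ?_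
  rw [ae_restrict_iff' measurableSet_Ioo]
  refine Eventually.of_forall fun x hx => ?_
  have h3 := log_four hx.1 hx.2
  have h4 := log_four (x := 1 - x) (by linarith [hx.2]) (by linarith [hx.1])
  show ‖lg x ^ 4‖ ≤ 32768 * x ^ (-(1 / 2) : ℝ) + 32768 * (1 - x) ^ (-(1 / 2) : ℝ)
  rw [Real.norm_eq_abs, abs_of_nonneg (by positivity)]
  unfold lg
  have h5 : ∀ a b : ℝ, (a - b) ^ 4 ≤ 8 * a ^ 4 + 8 * b ^ 4 := by
    intro a b
    nlinarith [sq_nonneg (a + b), sq_nonneg (a ^ 2 - b ^ 2), sq_nonneg (a * (a + b)),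
      sq_nonneg (b * (a + b)), sq_nonneg ((a + b) ^ 2), sq_nonneg (a - b), sq_nonneg (a * b),
      mul_nonneg (sq_nonneg (a + b)) (sq_nonneg (a - b))]
  have h6 := h5 (Real.log x) (Real.log (1 - x))
  linarith

theorem mem_sq (h : LCD ρ) (he : ∀ t, ρ (-t) = ρ t) : MemLp (fun t : ℝ => t ^ 2) 2 (law ρ) := by
  obtain ⟨T, hT, hTm, hb⟩ := lcd_T h he
  have hq : Measurable fun x => T (lg x) := hTm.monotone.measurable.comp lg_meas
  rw [← h.map_q hT hTm, memLp_map_measure_iff (by fun_prop) hq.aemeasurable]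
  have h1 : Integrable (fun x : ℝ => ((T (lg x)) ^ 2) ^ 2) (volume.restrict (Ioo (0 : ℝ) 1)) := by
    refine Integrable.mono' (lg_four_int.const_mul ((1 / (2 * ρ 0)) ^ 4))
      ((hq.pow_const 2).pow_const 2).aestronglyMeasurable ?_
    refine Eventually.of_forall fun x => ?_
    have h2 := pow_le_pow_left₀ (abs_nonneg _) (hb (lg x)) 4
    have e : ∀ a : ℝ, |a| ^ 4 = a ^ 4 := fun a => by
      rw [show (4 : ℕ) = 2 * 2 from rfl, pow_mul, sq_abs, ← pow_mul]
    rw [mul_pow, e, e] at h2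
    rw [Real.norm_eq_abs, abs_of_nonneg (by positivity), ← pow_mul]
    exact h2
  exact (memLp_two_iff_integrable_sq (hq.pow_const 2).aestronglyMeasurable).2 h1

theorem mean_zero (h : LCD ρ) (he : ∀ t, ρ (-t) = ρ t) : ∫ t, t ∂(law ρ) = 0 := by
  have h1 : ∫ t, t ∂(law ρ) = ∫ t, ρ t * t := by
    unfold law
    rw [integral_withDensity_eq_integral_toReal_smul h.meas.ennreal_ofReal
      (Eventually.of_forall fun _ => ENNReal.ofReal_lt_top)]
    refine integral_congr_ae (Eventually.of_forall fun t => ?_)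
    show (ENNReal.ofReal (ρ t)).toReal • t = _
    rw [ENNReal.toReal_ofReal (h.nonneg t), smul_eq_mul]
  have h2 : ∫ t, ρ t * t = -∫ t, ρ t * t := by
    conv_lhs => rw [← integral_neg_eq_self (fun t => ρ t * t) volume]
    rw [← integral_neg]
    refine integral_congr_ae (Eventually.of_forall fun t => ?_)
    show ρ (-t) * -t = -(ρ t * t)
    rw [he]
    ring
  rw [h1]
  linarith

theorem sqlog_cont : ContinuousOn (fun x : ℝ => x * Real.log x ^ 2 - 2 * (x * Real.log x) + 2 * x)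
    (Icc 0 1) := by
  have h1 : ContinuousOn (fun x : ℝ => x * Real.log x ^ 2) (Icc 0 1) := by
    have h2 : Continuous fun x : ℝ => 4 * (Real.sqrt x * Real.log (Real.sqrt x)) ^ 2 :=
      continuous_const.mul ((Real.continuous_mul_log.comp Real.continuous_sqrt).pow 2)
    refine h2.continuousOn.congr fun x hx => ?_
    show x * Real.log x ^ 2 = 4 * (Real.sqrt x * Real.log (Real.sqrt x)) ^ 2
    rw [Real.log_sqrt hx.1, mul_pow, Real.sq_sqrt hx.1]
    ring
  exact (h1.sub ((Real.continuous_mul_log.const_mul 2).continuousOn)).add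
    (continuous_const.mul continuous_id).continuousOn

theorem sqlog_der {x : ℝ} (hx : x ∈ Ioo (0 : ℝ) 1) :
    HasDerivAt (fun x : ℝ => x * Real.log x ^ 2 - 2 * (x * Real.log x) + 2 * x)
      (Real.log x ^ 2) x := by
  have hx0 : x ≠ 0 := hx.1.ne'
  have h1 := Real.hasDerivAt_log hx0
  have h2 := (((hasDerivAt_id x).mul (h1.pow 2)).sub
    (((hasDerivAt_id x).mul h1).const_mul 2)).add ((hasDerivAt_id x).const_mul 2)
  refine h2.congr_deriv ?_
  simp only [id, Pi.pow_apply]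
  field_simp
  ring

theorem sqlog_int : IntegrableOn (fun x : ℝ => Real.log x ^ 2) (Ioc 0 1) :=
  intervalIntegral.integrableOn_deriv_of_nonneg sqlog_cont (fun x hx => sqlog_der hx)
    fun x _ => sq_nonneg _

theorem sqlog_val : ∫ x in (0 : ℝ)..1, Real.log x ^ 2 = 2 := by
  rw [intervalIntegral.integral_eq_sub_of_hasDerivAt_of_le zero_le_one sqlog_cont
    (fun x hx => sqlog_der hx) ((intervalIntegrable_iff_integrableOn_Ioc_of_le zero_le_one).2
      sqlog_int)]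
  simp

theorem lg_sq_le : ∫ x in Ioo (0 : ℝ) 1, lg x ^ 2 ≤ 4 := by
  have hi : IntervalIntegrable (fun x : ℝ => Real.log x ^ 2) volume 0 1 :=
    (intervalIntegrable_iff_integrableOn_Ioc_of_le zero_le_one).2 sqlog_int
  have hi' : IntervalIntegrable (fun x : ℝ => Real.log (1 - x) ^ 2) volume 0 1 := by
    have := hi.comp_sub_left 1
    rw [sub_zero, sub_self] at this
    exact this.symm
  have h1 : ∫ x in Ioo (0 : ℝ) 1, (Real.log x ^ 2 + Real.log (1 - x) ^ 2) = 4 := by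
    rw [← integral_Ioc_eq_integral_Ioo, ← intervalIntegral.integral_of_le zero_le_one,
      intervalIntegral.integral_add hi hi', sqlog_val]
    have h2 := intervalIntegral.integral_comp_sub_left (fun x : ℝ => Real.log x ^ 2) (a := 0)
      (b := 1) 1
    rw [sub_zero, sub_self, sqlog_val] at h2
    rw [h2]
    norm_num
  have hI : IntegrableOn (fun x : ℝ => Real.log x ^ 2 + Real.log (1 - x) ^ 2) (Ioo 0 1) := by
    have := hi.add hi'
    rw [intervalIntegrable_iff_integrableOn_Ioo_of_le zero_le_one] at this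
    exact this
  have hp : ∀ x ∈ Ioo (0 : ℝ) 1, lg x ^ 2 ≤ Real.log x ^ 2 + Real.log (1 - x) ^ 2 := by
    intro x hx
    have h2 := Real.log_nonpos hx.1.le hx.2.le
    have h3 := Real.log_nonpos (x := 1 - x) (by linarith [hx.2]) (by linarith [hx.1])
    unfold lg
    nlinarith [mul_nonneg (neg_nonneg.2 h2) (neg_nonneg.2 h3)]
  have hI2 : IntegrableOn (fun x : ℝ => lg x ^ 2) (Ioo 0 1) := by
    refine Integrable.mono' hI (lg_meas.pow_const 2).aestronglyMeasurable ?_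
    rw [ae_restrict_iff' measurableSet_Ioo]
    refine Eventually.of_forall fun x hx => ?_
    rw [Real.norm_eq_abs, abs_of_nonneg (sq_nonneg _)]
    exact hp x hx
  rw [← h1]
  exact setIntegral_mono_on hI2 hI measurableSet_Ioo hp

theorem var_upper (h : LCD ρ) (he : ∀ t, ρ (-t) = ρ t) (h0 : 0 < ρ 0) :
    ∫ t, t ^ 2 ∂(law ρ) ≤ 1 / ρ 0 ^ 2 := by
  obtain ⟨T, hT, hTm, hb⟩ := lcd_T h he
  have hq : Measurable fun x => T (lg x) := hTm.monotone.measurable.comp lg_meas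
  have hmem := mem_sq h he
  have hs : Integrable (fun t : ℝ => t ^ 2) (law ρ) := by
    have := h.prob
    exact hmem.integrable one_le_two
  have hI2 : IntegrableOn (fun x : ℝ => lg x ^ 2) (Ioo 0 1) := by
    have hfin : IsFiniteMeasure (volume.restrict (Ioo (0 : ℝ) 1)) :=
      ⟨by rw [Measure.restrict_apply_univ]; simp⟩
    refine Integrable.mono' ((integrable_const (1 : ℝ)).add lg_four_int)
      (lg_meas.pow_const 2).aestronglyMeasurable (Eventually.of_forall fun x => ?_)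
    show ‖lg x ^ 2‖ ≤ 1 + lg x ^ 4
    rw [Real.norm_eq_abs, abs_of_nonneg (sq_nonneg _)]
    nlinarith [sq_nonneg (lg x ^ 2 - 1), sq_nonneg (lg x ^ 2)]
  have hs' : IntegrableOn (fun x : ℝ => T (lg x) ^ 2) (Ioo 0 1) := by
    rw [← h.map_q hT hTm] at hs
    exact (integrable_map_measure (by fun_prop) hq.aemeasurable).1 hs
  have h1 : ∫ t, t ^ 2 ∂(law ρ) = ∫ x in Ioo (0 : ℝ) 1, T (lg x) ^ 2 := by
    rw [← h.map_q hT hTm, integral_map hq.aemeasurable (by fun_prop)]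
  rw [h1]
  calc ∫ x in Ioo (0 : ℝ) 1, T (lg x) ^ 2
      ≤ ∫ x in Ioo (0 : ℝ) 1, (1 / (2 * ρ 0)) ^ 2 * lg x ^ 2 := by
        refine integral_mono hs' (hI2.const_mul _) fun x => ?_
        have h2 := pow_le_pow_left₀ (abs_nonneg _) (hb (lg x)) 2
        rwa [sq_abs, mul_pow, sq_abs] at h2
    _ = (1 / (2 * ρ 0)) ^ 2 * ∫ x in Ioo (0 : ℝ) 1, lg x ^ 2 := integral_const_mul _ _
    _ ≤ (1 / (2 * ρ 0)) ^ 2 * 4 := mul_le_mul_of_nonneg_left lg_sq_le (sq_nonneg _)
    _ = 1 / ρ 0 ^ 2 := by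
        field_simp
        ring

theorem F_lip (h : LCD ρ) (hs : ∀ t, ρ t ≤ ρ 0) (s t : ℝ) :
    |F ρ s - F ρ t| ≤ ρ 0 * |s - t| := by
  have h3 : ∀ s t, s ≤ t → F ρ t - F ρ s ≤ ρ 0 * (t - s) := by
    intro s t hst
    rw [h.F_sub]
    calc ∫ u in s..t, ρ u ≤ ∫ u in s..t, ρ 0 :=
          intervalIntegral.integral_mono hst h.integrable.intervalIntegrable
            intervalIntegrable_const fun u => hs u
      _ = ρ 0 * (t - s) := by simp; ring
  rcases le_total s t with hst | hst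
  · rw [abs_sub_comm, abs_of_nonneg (by linarith [h.F_mono hst]), abs_sub_comm,
      abs_of_nonneg (by linarith)]
    exact h3 s t hst
  · rw [abs_of_nonneg (by linarith [h.F_mono hst]), abs_of_nonneg (by linarith)]
    exact h3 t s hst

theorem fold_lip (h : LCD ρ) (he : ∀ t, ρ (-t) = ρ t) (hs : ∀ t, ρ t ≤ ρ 0) {σ : ℝ} (hσ : 0 ≤ σ)
    (t : ℝ) : (|F ρ t - 1 / 2| - |F ρ σ - 1 / 2|) ^ 2 ≤ ρ 0 ^ 2 * (|t| - σ) ^ 2 := by
  have h1 : |F ρ t - 1 / 2| = |F ρ |t| - 1 / 2| := by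
    rcases abs_choice t with h2 | h2
    · rw [h2]
    · rw [h2, lcd_refl' h he, ← abs_neg]
      congr 1
      ring
  rw [h1]
  have h3 : |(|F ρ |t| - 1 / 2| - |F ρ σ - 1 / 2|)| ≤ ρ 0 * |(|t| - σ)| := by
    refine (abs_abs_sub_abs_le_abs_sub _ _).trans ?_
    rw [sub_sub_sub_cancel_right]
    exact F_lip h hs _ _
  have h4 := pow_le_pow_left₀ (abs_nonneg _) h3 2
  rwa [sq_abs, mul_pow, sq_abs] at h4

/-- the law of `F` is uniform -/
theorem int_F' (h : LCD ρ) (φ : ℝ → ℝ) (hφ : Continuous φ) :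
    ∫ t, φ (F ρ t) ∂(law ρ) = ∫ x in Ioo (0 : ℝ) 1, φ x := by
  obtain ⟨m, T, hp, hF, hs, hT, hTm, hder⟩ := h.exists_T
  have hq : Measurable fun x => T (lg x) := hTm.monotone.measurable.comp lg_meas
  have hc : Continuous fun t => φ (F ρ t) := hφ.comp h.F_cont
  rw [← h.map_q hT hTm, integral_map hq.aemeasurable hc.aestronglyMeasurable]
  refine setIntegral_congr_fun measurableSet_Ioo fun x hx => ?_
  show φ (F ρ (T (lg x))) = φ x
  rw [h.F_T hT hx.1 hx.2]

theorem fold_var (h : LCD ρ) (c : ℝ) : 1 / 48 ≤ ∫ t, (|F ρ t - 1 / 2| - c) ^ 2 ∂(law ρ) := by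
  rw [int_F' h (fun x => (|x - 1 / 2| - c) ^ 2) (by fun_prop), ← integral_Ioc_eq_integral_Ioo,
    ← intervalIntegral.integral_of_le zero_le_one]
  have hc : Continuous fun x : ℝ => (|x - 1 / 2| - c) ^ 2 := by fun_prop
  rw [← intervalIntegral.integral_add_adjacent_intervals (b := 1 / 2)
    (hc.intervalIntegrable _ _) (hc.intervalIntegrable _ _)]
  have h1 : ∫ x in (0 : ℝ)..1 / 2, (|x - 1 / 2| - c) ^ 2 =
      ∫ x in (0 : ℝ)..1 / 2, (1 / 2 - x - c) ^ 2 := by
    refine intervalIntegral.integral_congr fun x hx => ?_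
    rw [uIcc_of_le (by norm_num)] at hx
    show (|x - 1 / 2| - c) ^ 2 = (1 / 2 - x - c) ^ 2
    rw [abs_of_nonpos (by linarith [hx.2])]
    ring
  have h2 : ∫ x in (1 / 2 : ℝ)..1, (|x - 1 / 2| - c) ^ 2 =
      ∫ x in (1 / 2 : ℝ)..1, (x - 1 / 2 - c) ^ 2 := by
    refine intervalIntegral.integral_congr fun x hx => ?_
    rw [uIcc_of_le (by norm_num)] at hx
    show (|x - 1 / 2| - c) ^ 2 = (x - 1 / 2 - c) ^ 2
    rw [abs_of_nonneg (by linarith [hx.1])]
  rw [h1, h2]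
  have h3 : ∫ x in (0 : ℝ)..1 / 2, (1 / 2 - x - c) ^ 2 = ((1 / 2 - c) ^ 3 - (-c) ^ 3) / 3 := by
    rw [intervalIntegral.integral_eq_sub_of_hasDerivAt
      (f := fun x : ℝ => -(1 / 2 - x - c) ^ 3 / 3) (fun x _ => ?_)
      (Continuous.intervalIntegrable (by fun_prop) _ _)]
    · ring
    · have h4 := (((hasDerivAt_id x).const_sub (1 / 2)).sub_const c).pow 3
      refine (h4.neg.div_const 3).congr_deriv ?_
      simp only [id]
      ring
  have h5 : ∫ x in (1 / 2 : ℝ)..1, (x - 1 / 2 - c) ^ 2 = ((1 / 2 - c) ^ 3 - (-c) ^ 3) / 3 := by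
    rw [intervalIntegral.integral_eq_sub_of_hasDerivAt
      (f := fun x : ℝ => (x - 1 / 2 - c) ^ 3 / 3) (fun x _ => ?_)
      (Continuous.intervalIntegrable (by fun_prop) _ _)]
    · ring
    · have h4 := (((hasDerivAt_id x).sub_const (1 / 2)).sub_const c).pow 3
      refine (h4.div_const 3).congr_deriv ?_
      simp only [id]
      ring
  rw [h3, h5]
  nlinarith [sq_nonneg (c - 1 / 4)]

theorem var_sq_lower (h : LCD ρ) (he : ∀ t, ρ (-t) = ρ t) (h0 : 0 < ρ 0)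
    (hs : ∀ t, ρ t ≤ ρ 0) :
    (∫ t, t ^ 2 ∂(law ρ)) / (48 * ρ 0 ^ 2) ≤
      ProbabilityTheory.variance (fun t : ℝ => t ^ 2) (law ρ) := by
  have := h.prob
  have hmem := mem_sq h he
  obtain ⟨v, hv⟩ : ∃ v, v = ∫ t, t ^ 2 ∂(law ρ) := ⟨_, rfl⟩
  have hv0 : 0 ≤ v := by rw [hv]; exact integral_nonneg fun t => sq_nonneg t
  have hvar : ProbabilityTheory.variance (fun t : ℝ => t ^ 2) (law ρ) =
      ∫ t, (t ^ 2 - v) ^ 2 ∂(law ρ) := by
    rw [ProbabilityTheory.variance_eq_integral (by fun_prop), ← hv]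
  have hi : Integrable (fun t : ℝ => (t ^ 2 - v) ^ 2) (law ρ) :=
    (hmem.sub (memLp_const v)).integrable_sq
  obtain ⟨σ, hσ⟩ : ∃ σ, σ = Real.sqrt v := ⟨_, rfl⟩
  have hσ0 : 0 ≤ σ := by rw [hσ]; exact Real.sqrt_nonneg _
  have hσ2 : σ ^ 2 = v := by rw [hσ]; exact Real.sq_sqrt hv0
  have hpt : ∀ t : ℝ, v / ρ 0 ^ 2 * (|F ρ t - 1 / 2| - |F ρ σ - 1 / 2|) ^ 2 ≤ (t ^ 2 - v) ^ 2 := by
    intro t
    have h1 := fold_lip h he hs hσ0 t
    have h2 : (t ^ 2 - v) ^ 2 = (|t| - σ) ^ 2 * (|t| + σ) ^ 2 := by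
      rw [← mul_pow, ← hσ2, ← sq_abs t]
      ring
    have h3 : v * (|t| - σ) ^ 2 ≤ (t ^ 2 - v) ^ 2 := by
      rw [h2, ← hσ2, mul_comm]
      refine mul_le_mul_of_nonneg_left ?_ (sq_nonneg _)
      exact pow_le_pow_left₀ hσ0 (by linarith [abs_nonneg t]) 2
    refine le_trans ?_ h3
    rw [div_mul_eq_mul_div, div_le_iff₀ (by positivity)]
    calc v * (|F ρ t - 1 / 2| - |F ρ σ - 1 / 2|) ^ 2 ≤ v * (ρ 0 ^ 2 * (|t| - σ) ^ 2) :=
          mul_le_mul_of_nonneg_left h1 hv0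
      _ = _ := by ring
  have h4 : ∫ t, v / ρ 0 ^ 2 * (|F ρ t - 1 / 2| - |F ρ σ - 1 / 2|) ^ 2 ∂(law ρ) ≤
      ∫ t, (t ^ 2 - v) ^ 2 ∂(law ρ) :=
    integral_mono_of_nonneg (Eventually.of_forall fun t => by positivity) hi
      (Eventually.of_forall hpt)
  rw [integral_const_mul] at h4
  have h5 := fold_var h (|F ρ σ - 1 / 2|)
  rw [hvar, ← hv]
  refine le_trans ?_ h4
  calc v / (48 * ρ 0 ^ 2) = v / ρ 0 ^ 2 * (1 / 48) := by
        field_simp
    _ ≤ _ := mul_le_mul_of_nonneg_left h5 (by positivity)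

end Pool.Agent.U55.SB
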