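import Pool.Agent.H756.SB.Stm2
import Pool.Agent.U55.SB.OneA

/-!
# Package ONE of project SB
-/

set_option autoImplicit false

namespace Pool.Agent.U55.SB

open MeasureTheory Set Filter Topology
open scoped ENNReal
open Pool.Agent.U959.OC

theorem t_ONE : Pool.Agent.H756.SB.S_ONE := by
  intro ρ h he h0 hs
  have hp := h.prob
  have hm := mean_zero h he
  have hv : ProbabilityTheory.variance (fun t : ℝ => t) (law ρ) = ∫ t, t ^ 2 ∂(law ρ) := by
    rw [ProbabilityTheory.variance_of_integral_eq_zero (by fun_prop) hm]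
  refine ⟨mem_sq h he, hm, hv, ?_, var_upper h he h0, var_sq_lower h he h0 hs⟩
  rw [← hv]
  exact h.var_lower h0 hs

end Pool.Agent.U55.SB
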